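import Mathlib

namespace Pool.Agent.H.MP_8e4c55_nt

open Finset

abbrev V := ℤ × ℤ × ℤ

def mb (v : V) : V := (-v.2.2, v.1 + v.2.2, v.2.1)
def E (v : V) : ℤ := v.1 + 32 * v.2.1 + 1024 * v.2.2
def gen (i : ℕ) : V := mb^[i] (-1, 2, 2)

def P0 : List V :=
   [(0, 0, 0), (7, -4, -7), (4, 3, 0), (0, -4, -3), (-4, 5, 6), (7, 0, -4), (-4, 1, 3),
    (4, -5, -6), (1, 6, 4), (-4, -3, 0), (7, 4, -1), (10, -3, -8), (3, 1, -1), (3, -7, -7),
    (10, -7, -11), (-7, 4, 7), (11, -1, -7), (-7, 0, 4), (-1, -6, -4), (0, 4, 3), (7, -8, -10),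
    (-3, 7, 7), (3, -3, -4), (11, -5, -10)]

def PL : List (List V) := [P0,
   [(2, -1, -2), (0, 4, 3), (7, 0, -4), (-4, 1, 3), (2, -5, -5), (9, -5, -9), (-4, -3, 0),
    (3, 5, 2), (-4, 5, 6), (6, -6, -8), (10, 1, -5), (10, -3, -8), (-8, 2, 6), (-1, -6, -4),
    (7, 4, -1), (-1, 6, 5), (3, -7, -7), (3, 1, -1), (-7, 4, 7), (-1, -2, -1), (6, -2, -5),
    (-1, 2, 2), (-5, -1, 2), (13, -2, -9), (13, -6, -12)],
   [(4, -1, -3), (-3, 3, 4), (0, -4, -3), (4, 3, 0), (8, -6, -9), (-3, -1, 1), (8, -2, -6),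
    (-2, 5, 5), (8, 2, -3), (4, -5, -6), (-6, 2, 5), (-3, -5, -2), (1, 6, 4), (4, -9, -9),
    (12, -3, -9), (1, -2, -2), (-6, -2, 2), (5, 5, 1), (-6, 6, 8), (1, 2, 1), (11, -5, -10),
    (1, -6, -5), (7, -8, -10), (11, 3, -4)],
   [(2, -1, -2), (-2, 4, 4), (6, 2, -2), (2, -5, -5), (-5, -1, 2), (9, -5, -9), (-5, 3, 5),
    (9, -1, -6), (2, 7, 4), (-2, -4, -2), (8, -7, -10), (2, 3, 1), (9, 3, -3), (6, -2, -5),
    (-2, 0, 1), (-1, 6, 5), (1, -7, -6), (-4, 5, 6), (-8, 2, 6), (12, -4, -10), (5, -4, -6),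
    (5, -8, -9), (-5, -5, -1), (12, 0, -7), (5, 4, 0)],
   [(2, 0, -1), (-2, -3, -1), (8, -2, -6), (2, 4, 2), (-5, 4, 6), (5, -7, -8), (6, 3, -1),
    (-5, 0, 3), (8, -6, -9), (1, -2, -2), (-2, 5, 5), (1, -6, -5), (9, 0, -5), (-5, -4, 0),
    (2, 8, 5), (9, -4, -8), (-2, 1, 2), (5, -3, -5), (-6, 2, 5), (5, 1, -2), (12, -3, -9),
    (9, 4, -2), (-1, 7, 6), (12, -7, -12)],
   [(2, 0, -1), (6, -5, -7), (-2, -3, -1), (-4, 2, 4), (2, 4, 2), (9, 0, -5), (9, -4, -8),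
    (-4, 6, 7), (2, -8, -7), (6, 3, -1), (2, -4, -4), (-5, 0, 3), (-5, -4, 0), (6, -1, -4),
    (3, 6, 3), (5, -7, -8), (-8, 3, 7), (-1, 3, 3), (9, -8, -11), (-1, -1, 0), (13, -5, -11),
    (0, 5, 4), (9, 4, -2), (-5, 4, 6), (-1, -5, -3), (12, -7, -12)],
   [(1, 1, 0), (5, -4, -6), (-3, -2, 0), (8, 1, -4), (-5, 3, 5), (1, 5, 3), (8, -3, -7),
    (4, -6, -7), (-2, -4, -2), (-5, 7, 8), (5, 4, 0), (8, -7, -10), (-6, 1, 4), (1, -3, -3),
    (12, -4, -10), (5, 0, -3), (1, -7, -6), (-6, -3, 1), (9, 3, -3), (-2, 4, 4), (2, 7, 4),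
    (-2, 0, 1), (11, -6, -11), (12, 0, -7), (-2, 8, 7), (-9, 4, 8)],
   [(1, 1, 0), (1, -3, -3), (7, -1, -5), (1, 5, 3), (7, -5, -8), (-4, 0, 2), (7, 3, -2),
    (-6, 5, 7), (0, -5, -4), (11, -2, -8), (-4, -4, -1), (4, -6, -7), (-3, 6, 6), (-6, 1, 4),
    (10, -4, -9), (4, 6, 2), (4, -2, -4), (-3, 2, 3), (4, 2, -1), (10, -8, -12), (3, -8, -8),
    (-7, -1, 3), (11, 2, -5), (-2, 8, 7), (-7, 3, 6)],
   [(3, -2, -3), (-1, 3, 3), (7, 1, -3), (-4, -2, 1), (3, -6, -6), (-4, 2, 4), (7, -3, -6),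
    (4, 4, 1), (7, -7, -9), (-4, 6, 7), (-1, -5, -3), (10, -2, -7), (-8, 3, 7), (-1, -1, 0),
    (0, 5, 4), (3, 2, 0), (10, -6, -10), (10, 2, -4), (-5, -4, 0), (3, 6, 3), (2, -8, -7),
    (-7, 5, 8), (-7, 1, 5), (7, 5, 0), (13, -5, -11)],
   [(3, -2, -3), (1, 3, 2), (-3, 0, 2), (8, -1, -5), (3, -6, -6), (8, -5, -8), (-3, -4, -1),
    (4, 4, 1), (-3, 4, 5), (-7, 1, 5), (8, 3, -2), (-2, 6, 6), (11, -4, -9), (-6, 3, 6),
    (7, -7, -9), (0, -7, -5), (4, 0, -2), (0, -3, -2), (1, 7, 5), (11, 0, -6), (0, 1, 1),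
    (-7, -3, 2), (-6, 7, 9), (4, -8, -8)]]

def sh (X : ℕ) (s : ℤ) : ℕ := if 0 ≤ s then X <<< s.toNat else X >>> (-s).toNat

theorem sh_s {X : ℕ} {s : ℤ} {n : ℕ} (h : (sh X s).testBit n = true) :
    ∃ m : ℕ, X.testBit m = true ∧ (n : ℤ) = m + s := by
  unfold sh at h
  split_ifs at h with hs
  · rw [Nat.testBit_shiftLeft] at h
    simp only [ge_iff_le, Bool.and_eq_true, decide_eq_true_eq] at h
    exact ⟨_, h.2, by omega⟩
  · rw [Nat.testBit_shiftRight] at h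
    exact ⟨_, h, by omega⟩

def andL : List ℕ → ℕ
  | [] => 0
  | [x] => x
  | x :: y :: l => x &&& andL (y :: l)

def orL : List ℕ → ℕ
  | [] => 0
  | x :: l => x ||| orL l

theorem andL_s {n : ℕ} : ∀ {l : List ℕ}, (andL l).testBit n = true → ∀ x ∈ l, x.testBit n = true
  | [], _, x, hx => by simp at hx
  | [y], h, x, hx => by
    rw [List.mem_singleton.1 hx]; exact h
  | y :: z :: l, h, x, hx => by
    simp only [andL, Nat.testBit_and, Bool.and_eq_true] at h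
    rcases List.mem_cons.1 hx with rfl | hx
    · exact h.1
    · exact andL_s h.2 x hx

theorem orL_s {n : ℕ} : ∀ {l : List ℕ}, (orL l).testBit n = true → ∃ x ∈ l, x.testBit n = true
  | [], h => by simp [orL] at h
  | y :: l, h => by
    simp only [orL, Nat.testBit_or, Bool.or_eq_true] at h
    rcases h with h | h
    · exact ⟨y, List.mem_cons_self, h⟩
    · obtain ⟨x, hx, h⟩ := orL_s h
      exact ⟨x, List.mem_cons_of_mem _ hx, h⟩

def mA (o : ℕ) : ℕ → ℕ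
  | 0 => 2 ^ o
  | i + 1 => mA o i ||| sh (mA o i) (E (gen i))

theorem mA_s (o : ℕ) : ∀ k n, (mA o k).testBit n = true → ∃ a : ℕ → ℤ, (∀ i, a i = 0 ∨ a i = 1) ∧
    (n : ℤ) = o + ∑ i ∈ range k, a i * E (gen i)
  | 0, n, h => by
    simp only [mA, Nat.testBit_two_pow, decide_eq_true_eq] at h
    exact ⟨fun _ => 0, fun _ => Or.inl rfl, by simp [h]⟩
  | k + 1, n, h => by
    have up : ∀ (a : ℕ → ℤ) (x : ℤ), ∑ i ∈ range (k + 1), Function.update a k x i * E (gen i)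
        = ∑ i ∈ range k, a i * E (gen i) + x * E (gen k) := by
      intro a x
      rw [sum_range_succ, Function.update_self]
      congr 1
      exact sum_congr rfl fun i hi => by
        rw [Function.update_of_ne (by simp only [mem_range] at hi; omega)]
    have up2 : ∀ (a : ℕ → ℤ) (x : ℤ), (∀ i, a i = 0 ∨ a i = 1) → (x = 0 ∨ x = 1) →
        ∀ i, Function.update a k x i = 0 ∨ Function.update a k x i = 1 := by
      intro a x ha hx i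
      by_cases hi : i = k
      · subst hi; simpa using hx
      · rw [Function.update_of_ne hi]; exact ha i
    simp only [mA, Nat.testBit_or, Bool.or_eq_true] at h
    rcases h with h | h
    · obtain ⟨a, ha, e⟩ := mA_s o k n h
      exact ⟨_, up2 a 0 ha (Or.inl rfl), by rw [up, e]; ring⟩
    · obtain ⟨m, hm, e⟩ := sh_s h
      obtain ⟨a, ha, e'⟩ := mA_s o k m hm
      exact ⟨_, up2 a 1 ha (Or.inr rfl), by rw [up, e, e']; ring⟩

def down : ℕ → ℕ → ℕ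
  | 0, X => X
  | i + 1, X => down i (X &&& sh X (-E (gen i)) &&& sh X (-(2 * E (gen i))))

theorem down_s (d : ℕ → ℤ) (hd : ∀ i, d i = 0 ∨ d i = 1 ∨ d i = 2) : ∀ k X n,
    (down k X).testBit n = true →
    ∃ m : ℕ, X.testBit m = true ∧ (m : ℤ) = n + ∑ i ∈ range k, d i * E (gen i)
  | 0, X, n, h => ⟨n, h, by simp⟩
  | k + 1, X, n, h => by
    obtain ⟨m, hm, e⟩ := down_s d hd k _ n h
    simp only [Nat.testBit_and, Bool.and_eq_true] at hm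
    rw [sum_range_succ]
    rcases hd k with h0 | h0 | h0
    · exact ⟨m, hm.1.1, by rw [h0, e]; ring⟩
    · obtain ⟨m', h1, e'⟩ := sh_s hm.1.2
      exact ⟨m', h1, by rw [h0]; linarith⟩
    · obtain ⟨m', h1, e'⟩ := sh_s hm.2
      exact ⟨m', h1, by rw [h0]; linarith⟩

def G (A : ℕ) (P : List V) : ℕ := andL (P.map fun p => sh A (E (mb^[12] p)))
def W (L : List (List V)) (g : ℕ) : ℕ := andL (L.map fun Q => orL (Q.map fun q => sh g (-E q)))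
def Wall (A : ℕ) (L : List (List V)) : ℕ := orL (L.map fun P => W L (G A P))

def Ok (o : ℕ) (P : List V) (x : ℤ) : Prop := ∀ p ∈ P, ∃ a : ℕ → ℤ, (∀ i, a i = 0 ∨ a i = 1) ∧
  x = o + ∑ i ∈ range 12, a i * E (gen i) + E (mb^[12] p)

theorem G_s {o : ℕ} {P : List V} {n : ℕ} (h : (G (mA o 12) P).testBit n = true) : Ok o P n := by
  intro p hp
  obtain ⟨m, hm, e⟩ := sh_s (andL_s h _ (List.mem_map_of_mem hp))
  obtain ⟨a, ha, e'⟩ := mA_s o 12 m hm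
  exact ⟨a, ha, by rw [e, e']⟩

theorem W_s {o : ℕ} {L : List (List V)} {P : List V} {n : ℕ}
    (h : (W L (G (mA o 12) P)).testBit n = true) : ∀ Q ∈ L, ∃ q ∈ Q, Ok o P (n + E q) := by
  intro Q hQ
  obtain ⟨x, hx, h1⟩ := orL_s (andL_s h _ (List.mem_map_of_mem hQ))
  obtain ⟨q, hq, rfl⟩ := List.mem_map.1 hx
  obtain ⟨m, hm, e⟩ := sh_s h1
  refine ⟨q, hq, ?_⟩
  rw [show (n : ℤ) + E q = m by linarith]
  exact G_s hm

def chk (o : ℕ) (L : List (List V)) (P : List V) : Bool :=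
  (down 12 (Wall (mA o 12) L)).testBit o && (G (mA o 12) P).testBit o
    && (W L (G (mA o 12) P)).testBit o

theorem chk_s {o : ℕ} {L : List (List V)} {P : List V} (h : chk o L P = true) :
    (∀ d : ℕ → ℤ, (∀ i, d i = 0 ∨ d i = 1 ∨ d i = 2) → ∃ P ∈ L, ∀ Q ∈ L, ∃ q ∈ Q,
      Ok o P (o + ∑ i ∈ range 12, d i * E (gen i) + E q)) ∧ Ok o P o ∧
      ∀ Q ∈ L, ∃ q ∈ Q, Ok o P (o + E q) := by
  simp only [chk, Bool.and_eq_true] at h
  refine ⟨fun d hd => ?_, G_s h.1.2, W_s h.2⟩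
  obtain ⟨m, hm, e⟩ := down_s d hd _ _ _ h.1.1
  obtain ⟨x, hx, h1⟩ := orL_s hm
  obtain ⟨P', hP, rfl⟩ := List.mem_map.1 hx
  refine ⟨P', hP, ?_⟩
  rw [← e]
  exact W_s h1

theorem chk_ok : chk 65536 PL P0 = true := by decide +kernel

theorem bdP : ∀ P ∈ PL, ∀ p ∈ P, (-9 ≤ p.1 ∧ p.1 ≤ 13 ∧ -9 ≤ p.2.1 ∧ p.2.1 ≤ 8) ∧
    -4 ≤ (mb^[12] p).1 ∧ (mb^[12] p).1 ≤ 4 ∧ -6 ≤ (mb^[12] p).2.1 ∧ (mb^[12] p).2.1 ≤ 6 := by
  decide +kernel

theorem P0_mem : P0 ∈ PL := List.mem_cons_self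
theorem zero_mem : ((0, 0, 0) : V) ∈ P0 := by decide

noncomputable def ev (b : ℂ) (v : V) : ℂ := (v.1 + v.2.1 * b + v.2.2 * b ^ 2) * b ^ 7

theorem ev_mb {b : ℂ} (hb : b ^ 3 - b + 1 = 0) (v : V) : ev b (mb v) = b * ev b v := by
  simp only [ev, mb]
  push_cast
  linear_combination (-(v.2.2 : ℂ) * b ^ 7) * hb

theorem ev_it {b : ℂ} (hb : b ^ 3 - b + 1 = 0) (v : V) (i : ℕ) :
    ev b (mb^[i] v) = b ^ i * ev b v := by
  induction i with
  | zero => simp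
  | succ i ih => rw [Function.iterate_succ_apply', ev_mb hb, ih]; ring

theorem ev_gen {b : ℂ} (hb : b ^ 3 - b + 1 = 0) (i : ℕ) : ev b (gen i) = b ^ i := by
  rw [gen, ev_it hb]
  have : ev b (-1, 2, 2) = 1 := by
    simp only [ev]
    push_cast
    linear_combination ((-1) * b ^ 0 + (-1) * b ^ 1 + (-1) * b ^ 2 + (1) * b ^ 4 + (2) * b ^ 5 + (2) * b ^ 6) * hb
  rw [this, mul_one]

theorem gens : gen 0 = (-1, 2, 2) ∧ gen 1 = (-2, 1, 2) ∧ gen 2 = (-2, 0, 1)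
    ∧ gen 3 = (-1, -1, 0) ∧ gen 4 = (0, -1, -1) ∧ gen 5 = (1, -1, -1)
    ∧ gen 6 = (1, 0, -1) ∧ gen 7 = (1, 0, 0) ∧ gen 8 = (0, 1, 0)
    ∧ gen 9 = (0, 0, 1) ∧ gen 10 = (-1, 1, 0) ∧ gen 11 = (0, -1, 1) := by
  decide

theorem lift {b : ℂ} (hb : b ^ 3 - b + 1 = 0) (d a : ℕ → ℤ) (hd : ∀ i, d i = 0 ∨ d i = 1 ∨ d i = 2)
    (ha : ∀ i, a i = 0 ∨ a i = 1) (q g : V) (hq : -9 ≤ q.1 ∧ q.1 ≤ 13 ∧ -9 ≤ q.2.1 ∧ q.2.1 ≤ 8)
    (hg : -4 ≤ g.1 ∧ g.1 ≤ 4 ∧ -6 ≤ g.2.1 ∧ g.2.1 ≤ 6)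
    (h : ∑ i ∈ range 12, d i * E (gen i) + E q = ∑ i ∈ range 12, a i * E (gen i) + E g) :
    ∑ i ∈ range 12, (d i : ℂ) * b ^ i + ev b q = ∑ i ∈ range 12, (a i : ℂ) * b ^ i + ev b g := by
  have hd' : ∀ i, 0 ≤ d i ∧ d i ≤ 2 := fun i => by have := hd i; omega
  have ha' : ∀ i, 0 ≤ a i ∧ a i ≤ 1 := fun i => by have := ha i; omega
  have s1 : ∀ (c : ℕ → ℤ), ∑ i ∈ range 12, c i * E (gen i) = ∑ i ∈ range 12, c i * (gen i).1
      + 32 * ∑ i ∈ range 12, c i * (gen i).2.1 + 1024 * ∑ i ∈ range 12, c i * (gen i).2.2 := by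
    intro c
    rw [mul_sum, mul_sum, ← sum_add_distrib, ← sum_add_distrib]
    exact sum_congr rfl fun i _ => by unfold E; ring
  have s2 : ∀ (c : ℕ → ℤ), ∑ i ∈ range 12, (c i : ℂ) * b ^ i
      = ev b (∑ i ∈ range 12, c i * (gen i).1, ∑ i ∈ range 12, c i * (gen i).2.1,
        ∑ i ∈ range 12, c i * (gen i).2.2) := by
    intro c
    simp only [ev]
    push_cast
    rw [sum_mul, sum_mul, ← sum_add_distrib, ← sum_add_distrib, sum_mul]
    refine sum_congr rfl fun i _ => ?_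
    rw [← ev_gen hb i, ev]; ring
  have bd : ∀ (c : ℕ → ℤ) (B : ℤ), (∀ i, 0 ≤ c i ∧ c i ≤ B) →
      (-7 * B ≤ ∑ i ∈ range 12, c i * (gen i).1 ∧ ∑ i ∈ range 12, c i * (gen i).1 ≤ 3 * B) ∧
      -4 * B ≤ ∑ i ∈ range 12, c i * (gen i).2.1 ∧ ∑ i ∈ range 12, c i * (gen i).2.1 ≤ 5 * B := by
    intro c B hc
    obtain ⟨g0, g1, g2, g3, g4, g5, g6, g7, g8, g9, g10, g11⟩ := gens
    simp only [sum_range_succ, range_zero, sum_empty, g0, g1, g2, g3, g4, g5, g6, g7, g8, g9, g10,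
      g11]
    have := hc 0; have := hc 1; have := hc 2; have := hc 3; have := hc 4; have := hc 5
    have := hc 6; have := hc 7; have := hc 8; have := hc 9; have := hc 10; have := hc 11
    omega
  have b1 := bd d 2 hd'
  have b2 := bd a 1 ha'
  rw [s1, s1] at h
  rw [s2, s2]
  generalize ∑ i ∈ range 12, d i * (gen i).1 = x1 at *
  generalize ∑ i ∈ range 12, d i * (gen i).2.1 = x2 at *
  generalize ∑ i ∈ range 12, d i * (gen i).2.2 = x3 at *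
  generalize ∑ i ∈ range 12, a i * (gen i).1 = y1 at *
  generalize ∑ i ∈ range 12, a i * (gen i).2.1 = y2 at *
  generalize ∑ i ∈ range 12, a i * (gen i).2.2 = y3 at *
  unfold E at h
  have e1 : x1 + q.1 = y1 + g.1 := by omega
  have e2 : x2 + q.2.1 = y2 + g.2.1 := by omega
  have e3 : x3 + q.2.2 = y3 + g.2.2 := by omega
  have f1 : (x1 : ℂ) + q.1 = y1 + g.1 := by exact_mod_cast e1
  have f2 : (x2 : ℂ) + q.2.1 = y2 + g.2.1 := by exact_mod_cast e2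
  have f3 : (x3 : ℂ) + q.2.2 = y3 + g.2.2 := by exact_mod_cast e3
  simp only [ev]
  linear_combination b ^ 7 * f1 + b ^ 8 * f2 + b ^ 9 * f3

def AS (b : ℂ) : Set ℂ :=
  {x | ∃ a : ℕ → ℤ, (∀ i, a i = 0 ∨ a i = 1) ∧ x = ∑ i ∈ range 12, (a i : ℂ) * b ^ i}

theorem okC {b : ℂ} (hb : b ^ 3 - b + 1 = 0) (d : ℕ → ℤ) (hd : ∀ i, d i = 0 ∨ d i = 1 ∨ d i = 2)
    (P : List V) (hP : P ∈ PL) (q : V) (hq : -9 ≤ q.1 ∧ q.1 ≤ 13 ∧ -9 ≤ q.2.1 ∧ q.2.1 ≤ 8) (o : ℕ)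
    (h : Ok o P (o + ∑ i ∈ range 12, d i * E (gen i) + E q)) :
    ∀ p ∈ P, ∑ i ∈ range 12, (d i : ℂ) * b ^ i - b ^ 12 * ev b p + ev b q ∈ AS b := by
  intro p hp
  obtain ⟨a, ha, e⟩ := h p hp
  have := lift hb d a hd ha q _ hq (bdP P hP p hp).2 (by linarith)
  rw [ev_it hb] at this
  exact ⟨a, ha, by linear_combination this⟩

theorem key {b : ℂ} (hb : b ^ 3 - b + 1 = 0) : ∃ t : ℂ → ℂ → ℂ, t 0 0 = 0 ∧
    ∀ x y z : ℂ, (∃ u ∈ AS b, ∃ v ∈ AS b, u + v = x) → (∃ u ∈ AS b, ∃ v ∈ AS b, u + v = y) →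
      y - b ^ 12 * t y z + t x y ∈ AS b ∨ ¬ (∃ u ∈ AS b, ∃ v ∈ AS b, u + v = z) := by
  classical
  obtain ⟨c1, c2, c3⟩ := chk_s chk_ok
  have ev0 : ev b (0, 0, 0) = 0 := by simp [ev]
  have main : ∀ z : ℂ, ∃ P ∈ PL, (z = 0 → P = P0) ∧ ∀ Q, ∃ q, (z = 0 → Q = P0 → q = (0, 0, 0)) ∧
      ((∃ u ∈ AS b, ∃ v ∈ AS b, u + v = z) → Q ∈ PL →
        q ∈ Q ∧ ∀ p ∈ P, z - b ^ 12 * ev b p + ev b q ∈ AS b) := by
    intro z
    by_cases hz : z = 0
    · refine ⟨P0, P0_mem, fun _ => rfl, fun Q => ?_⟩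
      by_cases hQ : Q = P0
      · refine ⟨(0, 0, 0), fun _ _ => rfl, fun _ _ => ⟨hQ ▸ zero_mem, ?_⟩⟩
        have := okC hb (fun _ => 0) (fun _ => Or.inl rfl) P0 P0_mem (0, 0, 0) (by simp) 65536
          (by simpa [E] using c2)
        simpa [hz] using this
      · by_cases hQ2 : Q ∈ PL
        · obtain ⟨q, hq, h⟩ := c3 Q hQ2
          refine ⟨q, fun _ h => absurd h hQ, fun _ _ => ⟨hq, ?_⟩⟩
          have := okC hb (fun _ => 0) (fun _ => Or.inl rfl) P0 P0_mem q (bdP Q hQ2 q hq).1 65536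
            (by simpa using h)
          simpa [hz] using this
        · exact ⟨(0, 0, 0), fun _ _ => rfl, fun _ h => absurd h hQ2⟩
    · by_cases hD : ∃ u ∈ AS b, ∃ v ∈ AS b, u + v = z
      · obtain ⟨u, ⟨a, ha, rfl⟩, v, ⟨a', ha', rfl⟩, e⟩ := hD
        have hd : ∀ i, a i + a' i = 0 ∨ a i + a' i = 1 ∨ a i + a' i = 2 := fun i => by
          have := ha i; have := ha' i; omega
        obtain ⟨P, hP, h⟩ := c1 (fun i => a i + a' i) hd
        refine ⟨P, hP, fun h => absurd h hz, fun Q => ?_⟩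
        by_cases hQ2 : Q ∈ PL
        · obtain ⟨q, hq, h⟩ := h Q hQ2
          refine ⟨q, fun h => absurd h hz, fun _ _ => ⟨hq, ?_⟩⟩
          have := okC hb _ hd P hP q (bdP Q hQ2 q hq).1 65536 h
          rw [← e, ← sum_add_distrib]
          simpa [add_mul] using this
        · exact ⟨(0, 0, 0), fun _ _ => rfl, fun _ h => absurd h hQ2⟩
      · exact ⟨P0, P0_mem, fun _ => rfl, fun Q => ⟨(0, 0, 0), fun _ _ => rfl, fun h => absurd h hD⟩⟩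
  choose cl hcl h0 qf hq0 hq using main
  refine ⟨fun x y => ev b (qf y (cl x)), ?_, fun x y z _ hy => ?_⟩
  · simp only
    rw [hq0 0 _ rfl (h0 0 rfl), ev0]
  · by_cases hz : ∃ u ∈ AS b, ∃ v ∈ AS b, u + v = z
    · left
      exact (hq y (cl x) hy (hcl x)).2 _ (hq z (cl y) hz (hcl y)).1
    · exact Or.inr hz

theorem root : ∃ b : ℂ, 1 < ‖b‖ ∧ b ^ 3 - b + 1 = 0 := by
  have hc : ContinuousOn (fun x : ℝ => x ^ 3 - x + 1) (Set.Icc (-2) (-1)) := by fun_prop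
  obtain ⟨x, hx, e⟩ := intermediate_value_Icc (by norm_num) hc
    (show (0 : ℝ) ∈ Set.Icc _ _ by constructor <;> norm_num)
  simp only at e
  have h1 : x < -1 := lt_of_le_of_ne hx.2 (by rintro rfl; norm_num at e)
  refine ⟨x, ?_, by exact_mod_cast e⟩
  rw [Complex.norm_real, Real.norm_eq_abs, lt_abs]
  right; linarith

theorem tele (g : ℂ) (hg : g ≠ 0) (u t : ℤ → ℂ) (hu : (Function.support u).Finite)
    (ht : (Function.support t).Finite) :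
    (Function.support fun j => u j - g * t j + t (j - 1)).Finite ∧
    ∑ᶠ j : ℤ, (u j - g * t j + t (j - 1)) * g ^ j = ∑ᶠ j : ℤ, u j * g ^ j := by
  have ht' : (Function.support fun j => t (j - 1)).Finite :=
    (ht.image (· + 1)).subset fun j hj => ⟨j - 1, hj, by ring⟩
  constructor
  · refine ((hu.union ht).union ht').subset fun j hj => ?_
    by_contra hc
    simp only [Set.mem_union, Function.mem_support, not_or, not_not] at hc
    exact hj (by simp [hc.1.1, hc.1.2, hc.2])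
  · have f1 : (Function.support fun j : ℤ => u j * g ^ j).Finite :=
      hu.subset (Function.support_mul_subset_left _ _)
    have f2 : (Function.support fun j : ℤ => t j * g ^ (j + 1)).Finite :=
      ht.subset (Function.support_mul_subset_left _ _)
    have f3 : (Function.support fun j : ℤ => t (j - 1) * g ^ j).Finite :=
      ht'.subset (Function.support_mul_subset_left _ _)
    have e : ∑ᶠ j : ℤ, t (j - 1) * g ^ j = ∑ᶠ j : ℤ, t j * g ^ (j + 1) := by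
      rw [← finsum_comp_equiv (Equiv.addRight (1 : ℤ))]
      simp
    have e2 : (fun j : ℤ => (u j - g * t j + t (j - 1)) * g ^ j)
        = fun j : ℤ => u j * g ^ j + (t (j - 1) * g ^ j - t j * g ^ (j + 1)) := by
      funext j
      rw [zpow_add_one₀ hg]; ring
    rw [e2, finsum_add_distrib f1 ((f3.union f2).subset (Function.support_sub _ _)),
      finsum_sub_distrib f3 f2, e, sub_self, add_zero]

end Pool.Agent.H.MP_8e4c55_nt
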